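import Mathlib

set_option autoImplicit false

namespace Pool.Agent.Results.MP_824d98_co.Taylor

/-- the subgraph induced on the vertices at distance exactly `k` from `x` -/
def Nbhd {V : Type} (G : SimpleGraph V) (x : V) (k : ℕ) := G.induce {y | G.edist x y = k}

def Realizable {W : Type} (H : SimpleGraph W) : Prop :=
  ∃ (V : Type) (_ : Fintype V) (G : SimpleGraph V), Nonempty V ∧
    ∀ x, Nonempty (Nbhd G x 1 ≃g H) ∧ Nonempty (Nbhd G x 2 ≃g H)

def Regular {W : Type} (H : SimpleGraph W) : Prop := ∃ d, ∀ v, (H.neighborSet v).ncard = d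

def Transitive {W : Type} (H : SimpleGraph W) : Prop := ∀ u v, ∃ f : H ≃g H, f u = v

abbrev A := ZMod 6 × ZMod 6 × ZMod 2

def s (p : A) : Bool :=
  !(p.1 == 0 && p.2.1 == 0) && ((p.1 == 0 || p.2.1 == 0 || p.1 + p.2.1 == 0) == (p.2.2 == 0))

theorem s_neg : ∀ p, s (-p) = s p := by decide +kernel

def G : SimpleGraph A where
  Adj u v := s (v - u) = true
  symm := ⟨fun u v h => by rw [← s_neg, neg_sub]; exact h⟩
  loopless := ⟨fun u h => by rw [sub_self] at h; exact absurd h (by decide)⟩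

def H : SimpleGraph {y : A // s y = true} := G.induce {y | s y = true}

def iso (x : A) (T : Set A) (h : ∀ y, y ∈ T ↔ s (y - x) = true) : G.induce T ≃g H where
  toFun y := ⟨y.1 - x, (h _).1 y.2⟩
  invFun y := ⟨y.1 + x, (h _).2 (by rw [add_sub_cancel_right]; exact y.2)⟩
  left_inv y := Subtype.ext (sub_add_cancel _ _)
  right_inv y := Subtype.ext (add_sub_cancel_right _ _)
  map_rel_iff' {a b} := by
    show s ((b.1 - x) - (a.1 - x)) = true ↔ s (b.1 - a.1) = true
    rw [sub_sub_sub_cancel_right]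

theorem two : ∀ d : A, (d ≠ 0 ∧ ¬ s d = true ∧ ∃ z, s z = true ∧ s (z - d) = true) ↔
    s (d - (0, 0, 1)) = true := by decide +kernel

theorem reg : ∀ v : A, s v = true →
    (Finset.univ.filter (fun w => s w = true ∧ s (w - v) = true)).card = 18 := by decide +kernel

def nc : ℕ → List A → Bool
  | 0, _ => false
  | k + 1, L => L.all (fun a => nc k (L.filter (fun b => s (b - a))))

def allA : List A := ([0, 1, 2, 3, 4, 5] : List (ZMod 6)) ×ˢ ([0, 1, 2, 3, 4, 5] : List (ZMod 6)) ×ˢ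
  ([0, 1] : List (ZMod 2))

theorem mem_all : ∀ a, a ∈ allA := by decide +kernel

theorem nc5 : nc 5 ((allA.filter s).filter (fun b => s (b - (0, 1, 0)))) = true := by decide +kernel

theorem noclique : ∀ a : A, s a = true → s (a - (0, 1, 0)) = true →
    ∀ b : A, s b = true → s (b - (0, 1, 0)) = true → s (b - a) = true →
    ∀ c : A, s c = true → s (c - (0, 1, 0)) = true → s (c - a) = true → s (c - b) = true →
    ∀ d : A, s d = true → s (d - (0, 1, 0)) = true → s (d - a) = true → s (d - b) = true →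
      s (d - c) = true →
    ∀ e : A, s e = true → s (e - (0, 1, 0)) = true → s (e - a) = true → s (e - b) = true →
      s (e - c) = true → s (e - d) = true → False := by
  intro a _ _ b _ _ _ c _ _ _ _ d _ _ _ _ _ e _ _ _ _ _ _
  have st : ∀ k L a, nc (k + 1) L = true → a ∈ L → nc k (L.filter (fun b => s (b - a))) = true :=
    fun k L a h ha => List.all_eq_true.1 h a ha
  have := st _ _ e (st _ _ d (st _ _ c (st _ _ b (st _ _ a nc5 ?_) ?_) ?_) ?_) ?_
  · simp [nc] at this
  all_goals simp only [List.mem_filter, mem_all, true_and, *]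

theorem result : ∃ (W : Type) (_ : Fintype W) (H : SimpleGraph W),
    Regular H ∧ Realizable H ∧ ¬ Transitive H := by
  refine ⟨_, inferInstance, H, ⟨18, fun v => ?_⟩, ⟨A, inferInstance, G, ⟨0⟩, fun x => ⟨⟨iso x _
    (fun y => ?_)⟩, ⟨iso (x + (0, 0, 1)) _ (fun y => ?_)⟩⟩⟩, fun h => ?_⟩
  · rw [← reg v v.2, ← Set.ncard_coe_finset,
      ← Set.ncard_image_of_injective _ Subtype.val_injective]
    congr 1
    ext w
    simp only [Set.mem_image, Finset.coe_filter, Finset.mem_univ, true_and, Set.mem_ofPred_eq]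
    exact ⟨fun ⟨u, h1, h2⟩ => h2 ▸ ⟨u.2, h1⟩, fun h => ⟨⟨w, h.1⟩, h.2, rfl⟩⟩
  · exact SimpleGraph.edist_eq_one_iff_adj
  · rw [← sub_sub, ← two]
    refine SimpleGraph.edist_eq_two_iff.trans (and_congr (by rw [sub_ne_zero, ne_comm])
      (and_congr Iff.rfl ⟨fun ⟨z, h1, h2⟩ => ⟨z - x, h1, ?_⟩, fun ⟨z, h1, h2⟩ => ⟨z + x, ?_, ?_⟩⟩))
    · rw [sub_sub_sub_cancel_right]; exact h2
    · show s _ = true; rw [add_sub_cancel_right]; exact h1
    · show s _ = true; rw [← h2]; congr 1; abel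
  · obtain ⟨f, hf⟩ := h ⟨(0, 3, 0), by decide⟩ ⟨(0, 1, 0), by decide⟩
    have e : ∀ u v, H.Adj u v → s ((f v).1 - (f u).1) = true := fun u v h => f.map_rel_iff.2 h
    have e0 : ∀ v, H.Adj ⟨(0, 3, 0), by decide⟩ v → s ((f v).1 - (0, 1, 0)) = true :=
      fun v h => by have := e _ _ h; rwa [hf] at this
    let a : {y : A // s y = true} := ⟨(1, 1, 1), by decide⟩
    let b : {y : A // s y = true} := ⟨(1, 4, 1), by decide⟩
    let c : {y : A // s y = true} := ⟨(3, 0, 0), by decide⟩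
    let d : {y : A // s y = true} := ⟨(3, 3, 0), by decide⟩
    let g : {y : A // s y = true} := ⟨(4, 1, 1), by decide⟩
    refine noclique (f a) (f a).2 (e0 _ ?_) (f b) (f b).2 (e0 _ ?_) (e _ _ ?_) (f c) (f c).2 (e0 _ ?_)
      (e _ _ ?_) (e _ _ ?_) (f d) (f d).2 (e0 _ ?_) (e _ _ ?_) (e _ _ ?_) (e _ _ ?_) (f g) (f g).2
      (e0 _ ?_) (e _ _ ?_) (e _ _ ?_) (e _ _ ?_) (e _ _ ?_) <;> (show s _ = true; decide)

end Pool.Agent.Results.MP_824d98_co.Taylor
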